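import Pool.Agent.Helper89.Vol.Goals

/-! # MP_cd13d2_co : the exact value of `V(3,6)`, packet PA0 (the path inequality in adapted coordinates) -/

set_option autoImplicit false

namespace Pool.Agent.Helper16.Vol.PkPA0

open Set Pool.Agent.Helper89.Vol

/-- the planar radius -/
theorem rad (z l p q r : ℝ) (h1 : p ^ 2 + q ^ 2 + (r - z) ^ 2 ≤ 1)
    (h2 : p ^ 2 + q ^ 2 + (r - z - l) ^ 2 ≤ 1) : p ^ 2 + q ^ 2 ≤ 1 - l ^ 2 / 4 := by
  linarith [sq_nonneg (2 * (r - z) - l)]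

theorem thm (h : G_J) : G_PA0 := by
  intro C hC z l a0 a1 a2 b0 b1 b2 c0 c1 c2 d0 d1 d2 hl0 hl1 hcb hbc ha ha' hb hb' hc hc' hd hd'
    hab hac had hbc2 hbd hcd
  subst hcb
  have rb := rad z l b0 c1 b2 hb hb'
  have rc := rad z l c0 c1 c2 hc hc'
  set n : ℝ := (c0 - b0) / 2 with hn
  set m0 : ℝ := (b0 + c0) / 2 with hm0
  have hn0 : 0 ≤ n := by rw [hn]; linarith
  have hn1 : n ≤ 1 / 2 := by
    have h1 : (c0 - b0) ^ 2 ≤ 1 := by linarith [hbc2, sq_nonneg (c1 - c1)]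
    have h2 : c0 - b0 ≤ 1 := by nlinarith [h1]
    rw [hn]
    linarith
  have hb0 : b0 = m0 - n := by rw [hn, hm0]; ring
  have hc0 : c0 = m0 + n := by rw [hn, hm0]; ring
  have hN1 : l * n ≤ n := mul_le_of_le_one_left hn0 hl1
  have hN0 : 0 ≤ l * n := mul_nonneg hl0 hn0
  have ht : l ^ 2 * (1 - l ^ 2 / 4) ≤ 3 / 4 := by
    have h1 : l ^ 2 ≤ 1 := pow_le_one₀ hl0 hl1
    linarith [mul_nonneg (sub_nonneg.2 h1) (by linarith : (0 : ℝ) ≤ 3 - l ^ 2)]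
  have hk : (l * |m0| + l * n) ^ 2 + (l * |c1|) ^ 2 ≤ 3 / 4 := by
    have e1 : (l * |m0| + l * n) ^ 2 + (l * |c1|) ^ 2 = l ^ 2 * ((|m0| + n) ^ 2 + c1 ^ 2) := by
      rw [← sq_abs c1]; ring
    rw [e1]
    refine le_trans (mul_le_mul_of_nonneg_left ?_ (sq_nonneg l)) ht
    rcases le_or_gt 0 m0 with h0 | h0
    · rw [abs_of_nonneg h0, ← hc0]; exact rc
    · rw [abs_of_neg h0]
      have e2 : (-m0 + n) ^ 2 = b0 ^ 2 := by rw [hb0]; ring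
      rw [e2]; exact rb
  have hg : |d0 - a0| ^ 2 + |d1 - a1| ^ 2 ≤ 1 := by
    rw [sq_abs, sq_abs]; linarith [had]
  have hS0 : (a1 + d1 - 2 * c1) ^ 2 + (d0 - a0) ^ 2 + (d1 - a1) ^ 2 + 4 * n ^ 2 +
      4 * n * |d0 - a0| ≤ 4 := by
    rcases le_or_gt 0 (d0 - a0) with h0 | h0
    · rw [abs_of_nonneg h0]
      rw [hb0] at hbd
      rw [hc0] at hac
      linarith [hac, hbd, sq_nonneg (a0 + d0 - 2 * m0)]
    · rw [abs_of_neg h0]
      rw [hb0] at hab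
      rw [hc0] at hcd
      linarith [hab, hcd, sq_nonneg (a0 + d0 - 2 * m0)]
  have hS : |a1 + d1 - 2 * c1| ^ 2 + |d0 - a0| ^ 2 + |d1 - a1| ^ 2 + 4 * (l * n) ^ 2 +
      4 * (l * n) * |d0 - a0| ≤ 4 := by
    have e1 : (l * n) ^ 2 ≤ n ^ 2 := pow_le_pow_left₀ hN0 hN1 2
    have e2 : l * n * |d0 - a0| ≤ n * |d0 - a0| := mul_le_mul_of_nonneg_right hN1 (abs_nonneg _)
    rw [sq_abs, sq_abs, sq_abs]
    linarith [hS0, e1, e2]
  have key := h C hC (l * n) (l * |m0|) (l * |c1|) |d0 - a0| |d1 - a1| |a1 + d1 - 2 * c1| hN0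
    (le_trans hN1 hn1) (mul_nonneg hl0 (abs_nonneg _)) (mul_nonneg hl0 (abs_nonneg _))
    (abs_nonneg _) (abs_nonneg _) (abs_nonneg _) hk hg hS
  have e : l * ((a0 * c1 - a1 * b0) + (b0 * c1 - c1 * c0) + (c0 * d1 - c1 * d0)) =
      l * m0 * (d1 - a1) - l * c1 * (d0 - a0) + l * n * (a1 + d1 - 2 * c1) := by
    rw [hb0, hc0]; ring
  rw [e]
  refine le_trans ?_ key
  have t1 : |l * m0 * (d1 - a1)| = l * |m0| * |d1 - a1| := by
    rw [abs_mul, abs_mul, abs_of_nonneg hl0]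
  have t2 : |l * c1 * (d0 - a0)| = l * |c1| * |d0 - a0| := by
    rw [abs_mul, abs_mul, abs_of_nonneg hl0]
  have t3 : |l * n * (a1 + d1 - 2 * c1)| = l * n * |a1 + d1 - 2 * c1| := by
    rw [abs_mul, abs_of_nonneg hN0]
  rw [← t1, ← t2, ← t3]
  exact le_trans (abs_add_le _ _) (add_le_add (abs_sub _ _) le_rfl)

end Pool.Agent.Helper16.Vol.PkPA0
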